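import Pool.Agent.Q54.DI.Inv

/-!
# The dense case
-/

set_option autoImplicit false

namespace Q54.DI

open Matrix Metric

variable {n : ℕ}

lemma continuous_act (g : SLZ n) : Continuous (act ℝ g) := by
  change Continuous fun v : Fin n → ℝ => (mat g).map (Int.castRingHom ℝ) *ᵥ v
  exact Continuous.matrix_mulVec continuous_const continuous_id

lemma mem_realClosure_of_mem {ι : Type} {S : Set (ι → ℚ)} {q : ι → ℚ} (hq : q ∈ S) :
    (fun i => (q i : ℝ)) ∈ realClosure S :=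
  subset_closure ⟨q, hq, fun _ => rfl⟩

lemma act_mem_realClosure {Γ : Subgroup (SLZ n)} {T : Set (Fin n → ℚ)} (hinv : IsInv Γ T) {g : SLZ n} (hg : g ∈ Γ)
    {x : Fin n → ℝ} (hx : x ∈ realClosure T) : act ℝ g x ∈ realClosure T := by
  refine map_mem_closure (continuous_act g) hx ?_
  rintro y ⟨q, hq, hy⟩
  refine ⟨act ℚ g q, hinv g hg q hq, fun i => ?_⟩
  have h : y = fun i => (Rat.castHom ℝ) (q i) := funext hy
  rw [h, act_map]
  rfl

/-- If a vector `y` is approached by small multiples, the lines of the other vectors are contained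
in the closure. -/
lemma line_mem {Γ : Subgroup (SLZ n)} (hΓ : Γ.index ≠ 0) {T : Set (Fin n → ℚ)} (hinv : IsInv Γ T)
    (y : Fin n → ℤ)
    (hy : ∀ ε : ℝ, 0 < ε → ∃ c : ℝ, c ≠ 0 ∧ |c| < ε ∧ (c • fun i => (y i : ℝ)) ∈ realClosure T)
    (w : Fin n → ℤ) {i j : Fin n} (hw : w i * y j - w j * y i ≠ 0) (ρ : ℝ) :
    (ρ • fun i => (w i : ℝ)) ∈ realClosure T := by
  let φ : Fin n → ℤ := Pi.single j (w i) - Pi.single i (w j)
  have hφ : φ ⬝ᵥ w = 0 := by
    rw [sub_dotProduct, single_dotProduct, single_dotProduct]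
    ring
  have hφy : φ ⬝ᵥ y = w i * y j - w j * y i := by
    rw [sub_dotProduct, single_dotProduct, single_dotProduct]
  obtain ⟨m, hm, huni⟩ := exists_uni_mem Γ hΓ w φ hφ
  let K : ℝ := m * (w i * y j - w j * y i : ℤ)
  have hK : K ≠ 0 := mul_ne_zero (Nat.cast_ne_zero.2 hm.ne') (Int.cast_ne_zero.2 hw)
  have key : ∀ (c : ℝ) (k : ℤ), (c • fun i => (y i : ℝ)) ∈ realClosure T →
      ((c • fun i => (y i : ℝ)) + (k * (c * K)) • fun i => (w i : ℝ)) ∈ realClosure T := by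
    intro c k hc
    have h1 := act_mem_realClosure hinv (huni k) hc
    rw [uni_act] at h1
    have h2 : (∑ l, (φ l : ℝ) * (c • fun i => (y i : ℝ)) l) = c * (φ ⬝ᵥ y : ℤ) := by
      rw [dotProduct, Int.cast_sum, Finset.mul_sum]
      refine Finset.sum_congr rfl fun l _ => ?_
      rw [Pi.smul_apply, smul_eq_mul, Int.cast_mul]
      ring
    rw [h2, hφy] at h1
    convert h1 using 2
    funext l
    simp only [Pi.smul_apply, smul_eq_mul, K]
    push_cast
    ring
  have hcl : IsClosed (realClosure T) := isClosed_closure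
  rw [← hcl.closure_eq, Metric.mem_closure_iff]
  intro ε hε
  let C : ℝ := ‖fun i => (y i : ℝ)‖ + |K| * ‖fun i => (w i : ℝ)‖ + 1
  have hC : 0 < C := by
    have h1 := norm_nonneg fun i => (y i : ℝ)
    have h2 := mul_nonneg (abs_nonneg K) (norm_nonneg fun i => (w i : ℝ))
    linarith
  obtain ⟨c, hc0, hc, hcT⟩ := hy (ε / C) (div_pos hε hC)
  have hcK : c * K ≠ 0 := mul_ne_zero hc0 hK
  let k : ℤ := round (ρ / (c * K))
  refine ⟨_, key c k hcT, ?_⟩
  have h1 : |ρ - k * (c * K)| ≤ |c| * |K| := by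
    have h2 : |ρ / (c * K) - k| ≤ 1 / 2 := abs_sub_round _
    have h3 : ρ - k * (c * K) = (ρ / (c * K) - k) * (c * K) := by
      rw [sub_mul, div_mul_cancel₀ _ hcK]
    rw [h3, abs_mul, abs_mul]
    have h4 : 0 ≤ |c| * |K| := by positivity
    nlinarith
  rw [dist_eq_norm]
  have h2 : (ρ • fun i => (w i : ℝ)) - ((c • fun i => (y i : ℝ)) + (k * (c * K)) • fun i => (w i : ℝ)) =
      (ρ - k * (c * K)) • (fun i => (w i : ℝ)) - c • fun i => (y i : ℝ) := by
    rw [sub_smul]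
    abel
  rw [h2]
  refine (norm_sub_le _ _).trans_lt ?_
  rw [norm_smul, norm_smul, Real.norm_eq_abs, Real.norm_eq_abs]
  have h3 : |c| * C < ε := by rwa [lt_div_iff₀ hC] at hc
  have h4 : |ρ - k * (c * K)| * ‖fun i => (w i : ℝ)‖ ≤ |c| * |K| * ‖fun i => (w i : ℝ)‖ :=
    mul_le_mul_of_nonneg_right h1 (norm_nonneg _)
  have h5 : |c| * C = |c| * ‖fun i => (y i : ℝ)‖ + |c| * |K| * ‖fun i => (w i : ℝ)‖ + |c| := by
    simp only [C]
    ring
  have h6 := abs_nonneg c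
  linarith

lemma dense_rat {ι : Type} [Fintype ι] (x : ι → ℝ) {ε : ℝ} (hε : 0 < ε) :
    ∃ q : ι → ℚ, dist x (fun i => (q i : ℝ)) < ε := by
  have h : ∀ i, ∃ q : ℚ, dist (x i) (q : ℝ) < ε := fun i => by
    obtain ⟨q, hq⟩ := Rat.denseRange_cast.exists_dist_lt (x i) hε
    exact ⟨q, hq⟩
  choose q hq using h
  exact ⟨q, (dist_pi_lt_iff hε).2 hq⟩

/-- **The dense case.** -/
theorem realClosure_eq_univ {Γ : Subgroup (SLZ (n + 2))} (hΓ : Γ.index ≠ 0) {T : Set (Fin (n + 2) → ℚ)}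
    (hinv : IsInv Γ T) (g : SLZ (n + 2))
    (h : ∀ ε : ℚ, 0 < ε → ∃ c : ℚ, c ≠ 0 ∧ c • act ℚ g (Pi.single 0 1) ∈ T ∧ |c| < ε) :
    realClosure T = Set.univ := by
  let y : Fin (n + 2) → ℤ := mat g *ᵥ Pi.single 0 1
  have hy0 : act ℚ g (Pi.single 0 1) = fun i => (y i : ℚ) := by
    rw [← act_intCast]
    congr 1
    funext i
    rw [Pi.single_apply, Pi.single_apply]
    split_ifs <;> simp
  have hyne : ∃ i, y i ≠ 0 := by
    by_contra hcon
    push Not at hcon
    have h1 : act ℚ g (Pi.single 0 1) = 0 := by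
      rw [hy0]
      funext i
      rw [hcon i, Int.cast_zero]
      rfl
    have h2 := act_inv_act g (Pi.single 0 1 : Fin (n + 2) → ℚ)
    rw [h1, act_zero] at h2
    have h3 := congrFun h2 0
    rw [Pi.zero_apply, Pi.single_eq_same] at h3
    exact zero_ne_one h3
  have hy : ∀ ε : ℝ, 0 < ε → ∃ c : ℝ, c ≠ 0 ∧ |c| < ε ∧ (c • fun i => (y i : ℝ)) ∈ realClosure T := by
    intro ε hε
    obtain ⟨q, hq0, hq⟩ := exists_rat_btwn hε
    obtain ⟨c, hc0, hcT, hc⟩ := h q (by exact_mod_cast hq0)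
    refine ⟨c, by exact_mod_cast hc0, ?_, ?_⟩
    · have h1 : |(c : ℝ)| < q := by exact_mod_cast hc
      exact h1.trans hq
    · have h1 := mem_realClosure_of_mem hcT
      convert h1 using 1
      funext i
      rw [hy0]
      simp only [Pi.smul_apply, smul_eq_mul]
      push_cast
      rfl
  obtain ⟨i, hi⟩ := hyne
  obtain ⟨j, hj⟩ : ∃ j : Fin (n + 2), j ≠ i := exists_ne i
  let w' : Fin (n + 2) → ℤ := Pi.single j 1
  have hw' : w' j * y i - w' i * y j ≠ 0 := by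
    have h1 : w' j = 1 := Pi.single_eq_same _ _
    have h2 : w' i = 0 := Pi.single_eq_of_ne hj.symm _
    rw [h1, h2, one_mul, zero_mul, sub_zero]
    exact hi
  have hline' : ∀ ρ : ℝ, (ρ • fun l => (w' l : ℝ)) ∈ realClosure T := line_mem hΓ hinv y hy w' hw'
  have hy' : ∀ ε : ℝ, 0 < ε → ∃ c : ℝ, c ≠ 0 ∧ |c| < ε ∧ (c • fun i => (w' i : ℝ)) ∈ realClosure T := by
    intro ε hε
    refine ⟨ε / 2, (half_pos hε).ne', ?_, hline' _⟩
    rw [abs_of_pos (half_pos hε)]
    exact half_lt_self hε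
  have hall : ∀ (w : Fin (n + 2) → ℤ) (ρ : ℝ), (ρ • fun l => (w l : ℝ)) ∈ realClosure T := by
    intro w ρ
    by_cases h1 : ∃ a b, w a * y b - w b * y a ≠ 0
    · obtain ⟨a, b, h1⟩ := h1
      exact line_mem hΓ hinv y hy w h1 ρ
    · push Not at h1
      by_cases h2 : w i = 0
      · have h3 : w = 0 := by
          funext l
          have h4 := h1 l i
          rw [h2, zero_mul, sub_zero] at h4
          exact (mul_eq_zero.1 h4).resolve_right hi
        have h5 := hline' 0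
        rw [zero_smul] at h5
        rw [h3]
        convert h5 using 1
        funext l
        simp
      · refine line_mem hΓ hinv w' hy' w (i := i) (j := j) ?_ ρ
        have h3 : w' j = 1 := Pi.single_eq_same _ _
        have h4 : w' i = 0 := Pi.single_eq_of_ne hj.symm _
        rw [h3, h4, mul_one, mul_zero, sub_zero]
        exact h2
  refine Set.eq_univ_of_forall fun x => ?_
  have hcl : IsClosed (realClosure T) := isClosed_closure
  rw [← hcl.closure_eq, Metric.mem_closure_iff]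
  intro ε hε
  obtain ⟨q, hq⟩ := dense_rat x hε
  refine ⟨_, ?_, hq⟩
  obtain ⟨D, hD, v, hv⟩ : ∃ D : ℤ, D ≠ 0 ∧ ∃ v : Fin (n + 2) → ℤ, ∀ i, q i * D = v i := by
    refine ⟨∏ i, ((q i).den : ℤ), Finset.prod_ne_zero_iff.2 fun i _ => by exact_mod_cast (q i).den_ne_zero,
      fun i => (q i).num * ∏ j ∈ Finset.univ.erase i, ((q j).den : ℤ), fun i => ?_⟩
    rw [← Finset.mul_prod_erase Finset.univ _ (Finset.mem_univ i)]
    push_cast
    rw [← mul_assoc]
    congr 1
    exact Rat.mul_den_eq_num (q i)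
  have h1 := hall v ((D : ℝ)⁻¹)
  convert h1 using 1
  funext l
  have h2 : (q l : ℝ) * D = v l := by exact_mod_cast hv l
  have h3 : (D : ℝ) ≠ 0 := Int.cast_ne_zero.2 hD
  rw [Pi.smul_apply, smul_eq_mul, ← h2]
  field_simp

/-- **The dichotomy.** -/
theorem dichotomy (hZ : ¬ IntDioph) {Γ : Subgroup (SLZ (n + 2))} (hΓ : Γ.index ≠ 0) {T : Set (Fin (n + 2) → ℚ)}
    (hT : IsDioph T) (hinv : IsInv Γ T) {x : Fin (n + 2) → ℚ} (hx : x ∈ T) (hx0 : x ≠ 0) :
    realClosure T = Set.univ := by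
  by_cases h : ∀ g : SLZ (n + 2), ∃ ε : ℚ, 0 < ε ∧ ∀ c : ℚ, c ≠ 0 → c • act ℚ g (Pi.single 0 1) ∈ T → ε ≤ |c|
  · exact absurd (intDioph_of_discrete Γ hΓ hT hinv hx hx0 h) hZ
  · push Not at h
    obtain ⟨g, hg⟩ := h
    exact realClosure_eq_univ hΓ hinv g hg

end Q54.DI
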