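import Mathlib

/-!
# Diophantine subsets of `ℚ^ι` and semialgebraic subsets of `ℝ^ι`
-/

set_option autoImplicit false

namespace Q54.DI

open MvPolynomial

variable {ι κ : Type}

/-- The set `S` of rational points is Diophantine: a projection of the set of the rational zeros of
a polynomial with rational coefficients. -/
def IsDioph (S : Set (ι → ℚ)) : Prop :=
  ∃ (m : ℕ) (f : MvPolynomial (ι ⊕ Fin m) ℚ), ∀ x, x ∈ S ↔ ∃ y : Fin m → ℚ, eval (Sum.elim x y) f = 0

/-- The set of the integers in `ℚ` is Diophantine. -/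
def IntDioph : Prop := IsDioph {x : Unit → ℚ | ∃ z : ℤ, x () = z}

/-- The closure in `ℝ^ι` of a set of rational points. -/
def realClosure (S : Set (ι → ℚ)) : Set (ι → ℝ) :=
  closure {x : ι → ℝ | ∃ q ∈ S, ∀ i, x i = (q i : ℝ)}

/-- A semialgebraic subset of `ℝ^ι` defined over `ℚ`: a finite union of sets given by an equation
`P = 0` and by finitely many inequalities `g > 0`. -/
def IsSemialg (A : Set (ι → ℝ)) : Prop :=
  ∃ (m : ℕ) (P : Fin m → MvPolynomial ι ℚ) (G : Fin m → Finset (MvPolynomial ι ℚ)),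
    A = {x : ι → ℝ | ∃ j : Fin m, (aeval x (P j) : ℝ) = 0 ∧ ∀ g ∈ G j, (0 : ℝ) < aeval x g}

lemma isDioph_of_fintype {S : Set (ι → ℚ)} {κ : Type} [Fintype κ] (f : MvPolynomial (ι ⊕ κ) ℚ)
    (h : ∀ x, x ∈ S ↔ ∃ y : κ → ℚ, eval (Sum.elim x y) f = 0) : IsDioph S := by
  let e := Fintype.equivFin κ
  refine ⟨Fintype.card κ, rename (Sum.map id e) f, fun x => ?_⟩
  rw [h]
  have key : ∀ y : Fin (Fintype.card κ) → ℚ,
      eval (Sum.elim x y) (rename (Sum.map id e) f) = eval (Sum.elim x (y ∘ e)) f := by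
    intro y
    rw [eval_rename]
    congr 2
    funext i
    rcases i with i | i <;> rfl
  constructor
  · rintro ⟨y, hy⟩
    refine ⟨y ∘ e.symm, ?_⟩
    rw [key, Function.comp_assoc, e.symm_comp_self]
    exact hy
  · rintro ⟨y, hy⟩
    exact ⟨y ∘ e, by rw [← key]; exact hy⟩

/-- The preimage of a Diophantine set under a polynomial map. -/
lemma IsDioph.preimage {S : Set (ι → ℚ)} (hS : IsDioph S) (p : ι → MvPolynomial κ ℚ) :
    IsDioph {x : κ → ℚ | (fun i => eval x (p i)) ∈ S} := by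
  obtain ⟨m, f, hf⟩ := hS
  refine ⟨m, bind₁ (Sum.elim (fun i => rename Sum.inl (p i)) fun j => X (Sum.inr j)) f, fun x => ?_⟩
  change (fun i => eval x (p i)) ∈ S ↔ _
  rw [hf]
  refine exists_congr fun y => ?_
  have key : eval (Sum.elim x y) (bind₁ (Sum.elim (fun i => rename Sum.inl (p i)) fun j => X (Sum.inr j)) f) =
      eval (Sum.elim (fun i => eval x (p i)) y) f := by
    rw [eval, eval₂Hom_bind₁]
    congr 2
    funext i
    rcases i with i | i
    · change eval (Sum.elim x y) (rename Sum.inl (p i)) = eval x (p i)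
      rw [eval_rename, Sum.elim_comp_inl]
    · change eval (Sum.elim x y) (X (Sum.inr i)) = y i
      rw [eval_X]
      rfl
  rw [key]

/-- The union of two Diophantine sets. -/
lemma IsDioph.union {S T : Set (ι → ℚ)} (hS : IsDioph S) (hT : IsDioph T) : IsDioph (S ∪ T) := by
  obtain ⟨m, f, hf⟩ := hS
  obtain ⟨n, g, hg⟩ := hT
  refine isDioph_of_fintype (κ := Fin m ⊕ Fin n) (rename (Sum.map id Sum.inl) f * rename (Sum.map id Sum.inr) g)
    fun x => ?_
  rw [Set.mem_union, hf, hg]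
  have k1 : ∀ y : Fin m ⊕ Fin n → ℚ, eval (Sum.elim x y) (rename (Sum.map id Sum.inl) f) =
      eval (Sum.elim x (y ∘ Sum.inl)) f := by
    intro y
    rw [eval_rename]
    congr 2
    funext i
    rcases i with i | i <;> rfl
  have k2 : ∀ y : Fin m ⊕ Fin n → ℚ, eval (Sum.elim x y) (rename (Sum.map id Sum.inr) g) =
      eval (Sum.elim x (y ∘ Sum.inr)) g := by
    intro y
    rw [eval_rename]
    congr 2
    funext i
    rcases i with i | i <;> rfl
  constructor
  · rintro (⟨y, hy⟩ | ⟨y, hy⟩)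
    · refine ⟨Sum.elim y 0, ?_⟩
      rw [map_mul, k1, Sum.elim_comp_inl, hy, zero_mul]
    · refine ⟨Sum.elim 0 y, ?_⟩
      rw [map_mul, k2, Sum.elim_comp_inr, hy, mul_zero]
  · rintro ⟨y, hy⟩
    rw [map_mul, k1, k2, mul_eq_zero] at hy
    rcases hy with hy | hy
    · exact Or.inl ⟨_, hy⟩
    · exact Or.inr ⟨_, hy⟩

/-- The intersection of two Diophantine sets. -/
lemma IsDioph.inter {S T : Set (ι → ℚ)} (hS : IsDioph S) (hT : IsDioph T) : IsDioph (S ∩ T) := by
  obtain ⟨m, f, hf⟩ := hS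
  obtain ⟨n, g, hg⟩ := hT
  refine isDioph_of_fintype (κ := Fin m ⊕ Fin n)
    (rename (Sum.map id Sum.inl) f * rename (Sum.map id Sum.inl) f +
      rename (Sum.map id Sum.inr) g * rename (Sum.map id Sum.inr) g) fun x => ?_
  rw [Set.mem_inter_iff, hf, hg]
  have k1 : ∀ y : Fin m ⊕ Fin n → ℚ, eval (Sum.elim x y) (rename (Sum.map id Sum.inl) f) =
      eval (Sum.elim x (y ∘ Sum.inl)) f := by
    intro y
    rw [eval_rename]
    congr 2
    funext i
    rcases i with i | i <;> rfl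
  have k2 : ∀ y : Fin m ⊕ Fin n → ℚ, eval (Sum.elim x y) (rename (Sum.map id Sum.inr) g) =
      eval (Sum.elim x (y ∘ Sum.inr)) g := by
    intro y
    rw [eval_rename]
    congr 2
    funext i
    rcases i with i | i <;> rfl
  constructor
  · rintro ⟨⟨y, hy⟩, z, hz⟩
    refine ⟨Sum.elim y z, ?_⟩
    rw [map_add, map_mul, map_mul, k1, k2, Sum.elim_comp_inl, Sum.elim_comp_inr, hy, hz]
    ring
  · rintro ⟨y, hy⟩
    rw [map_add, map_mul, map_mul, k1, k2] at hy
    have h1 := mul_self_nonneg (eval (Sum.elim x (y ∘ Sum.inl)) f)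
    have h2 := mul_self_nonneg (eval (Sum.elim x (y ∘ Sum.inr)) g)
    exact ⟨⟨_, mul_self_eq_zero.1 (le_antisymm (by linarith) h1)⟩,
      _, mul_self_eq_zero.1 (le_antisymm (by linarith) h2)⟩

/-- The projection of a Diophantine set. -/
lemma IsDioph.proj {κ : Type} [Fintype κ] {S : Set (ι ⊕ κ → ℚ)} (hS : IsDioph S) :
    IsDioph {x : ι → ℚ | ∃ y : κ → ℚ, Sum.elim x y ∈ S} := by
  obtain ⟨m, f, hf⟩ := hS
  refine isDioph_of_fintype (κ := κ ⊕ Fin m) (rename (Equiv.sumAssoc ι κ (Fin m)) f) fun x => ?_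
  have k1 : ∀ (y : κ → ℚ) (z : Fin m → ℚ), eval (Sum.elim x (Sum.elim y z)) (rename (Equiv.sumAssoc ι κ (Fin m)) f) =
      eval (Sum.elim (Sum.elim x y) z) f := by
    intro y z
    rw [eval_rename]
    congr 2
    funext i
    rcases i with (i | i) | i <;> rfl
  constructor
  · rintro ⟨y, hy⟩
    obtain ⟨z, hz⟩ := (hf _).1 hy
    exact ⟨Sum.elim y z, by rw [k1]; exact hz⟩
  · rintro ⟨y, hy⟩
    refine ⟨y ∘ Sum.inl, (hf _).2 ⟨y ∘ Sum.inr, ?_⟩⟩
    rw [← k1, Sum.elim_comp_inl_inr]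
    exact hy

/-- The set of the zeros of a polynomial. -/
lemma isDioph_zeros (p : MvPolynomial ι ℚ) : IsDioph {x : ι → ℚ | eval x p = 0} := by
  refine ⟨0, rename Sum.inl p, fun x => ?_⟩
  have k1 : ∀ y : Fin 0 → ℚ, eval (Sum.elim x y) (rename Sum.inl p) = eval x p := by
    intro y
    rw [eval_rename, Sum.elim_comp_inl]
  constructor
  · intro h
    exact ⟨0, by rw [k1]; exact h⟩
  · rintro ⟨y, hy⟩
    rw [k1] at hy
    exact hy

lemma isDioph_univ : IsDioph (Set.univ : Set (ι → ℚ)) := by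
  have h := isDioph_zeros (0 : MvPolynomial ι ℚ)
  simpa using h

lemma isDioph_empty : IsDioph (∅ : Set (ι → ℚ)) := by
  have h := isDioph_zeros (1 : MvPolynomial ι ℚ)
  simpa using h

/-- A finite union of Diophantine sets. -/
lemma isDioph_iUnion {S : ℕ → Set (ι → ℚ)} (hS : ∀ j, IsDioph (S j)) (n : ℕ) :
    IsDioph {x : ι → ℚ | ∃ j < n, x ∈ S j} := by
  induction n with
  | zero =>
    have h : {x : ι → ℚ | ∃ j < 0, x ∈ S j} = ∅ := by
      ext x
      simp
    rw [h]
    exact isDioph_empty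
  | succ n ih =>
    have h : {x : ι → ℚ | ∃ j < n + 1, x ∈ S j} = {x : ι → ℚ | ∃ j < n, x ∈ S j} ∪ S n := by
      ext x
      constructor
      · rintro ⟨j, hj, hx⟩
        rcases Nat.lt_succ_iff_lt_or_eq.1 hj with h1 | rfl
        · exact Or.inl ⟨j, h1, hx⟩
        · exact Or.inr hx
      · rintro (⟨j, hj, hx⟩ | hx)
        · exact ⟨j, by omega, hx⟩
        · exact ⟨n, by omega, hx⟩
    rw [h]
    exact ih.union (hS n)

/-- The set of the points where a polynomial is not zero. -/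
lemma isDioph_ne (p : MvPolynomial ι ℚ) : IsDioph {x : ι → ℚ | eval x p ≠ 0} := by
  refine isDioph_of_fintype (κ := Unit) (rename Sum.inl p * X (Sum.inr ()) - 1) fun x => ?_
  have k1 : ∀ y : Unit → ℚ, eval (Sum.elim x y) (rename Sum.inl p * X (Sum.inr ()) - 1) =
      eval x p * y () - 1 := by
    intro y
    rw [map_sub, map_mul, eval_rename, Sum.elim_comp_inl, eval_X, map_one]
    rfl
  constructor
  · intro h
    refine ⟨fun _ => (eval x p)⁻¹, ?_⟩
    rw [k1, mul_inv_cancel₀ h, sub_self]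
  · rintro ⟨y, hy⟩ h
    rw [k1, h, zero_mul, zero_sub] at hy
    exact absurd hy (by norm_num)

end Q54.DI
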