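import Mathlib

/-!
# The action of `SL_n(ℤ)` on vectors
-/

set_option autoImplicit false

namespace Q54.DI

open Matrix

/-- The group `SL_n(ℤ)`. -/
abbrev SLZ (n : ℕ) : Type := Matrix.SpecialLinearGroup (Fin n) ℤ

/-- The matrix of an element. -/
abbrev mat {n : ℕ} (g : SLZ n) : Matrix (Fin n) (Fin n) ℤ := (g : Matrix (Fin n) (Fin n) ℤ)

/-- The action of `SL_n(ℤ)` on vectors with entries in a ring. -/
def act {n : ℕ} (R : Type) [CommRing R] (g : SLZ n) (v : Fin n → R) : Fin n → R :=
  (mat g).map (Int.castRingHom R) *ᵥ v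

lemma mat_one {n : ℕ} : mat (1 : SLZ n) = 1 := Matrix.SpecialLinearGroup.coe_one

lemma mat_mul {n : ℕ} (g h : SLZ n) : mat (g * h) = mat g * mat h :=
  Matrix.SpecialLinearGroup.coe_mul g h

lemma mat_transvection {n : ℕ} {i j : Fin n} (hij : i ≠ j) (c : ℤ) :
    mat (SpecialLinearGroup.transvection hij c) = 1 + single i j c :=
  SpecialLinearGroup.transvection_coe hij c

variable {n : ℕ} {R : Type} [CommRing R]

lemma act_one (v : Fin n → R) : act R (1 : SLZ n) v = v := by
  have h : (mat (1 : SLZ n)).map (Int.castRingHom R) = 1 := by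
    rw [mat_one]
    exact Matrix.map_one _ (map_zero _) (map_one _)
  rw [act, h, one_mulVec]

lemma act_mul (g h : SLZ n) (v : Fin n → R) : act R (g * h) v = act R g (act R h v) := by
  have e : (mat (g * h)).map (Int.castRingHom R) = (mat g).map (Int.castRingHom R) * (mat h).map (Int.castRingHom R) := by
    rw [mat_mul, Matrix.map_mul]
  rw [act, e, act, act, mulVec_mulVec]

lemma act_add (g : SLZ n) (v w : Fin n → R) : act R g (v + w) = act R g v + act R g w :=
  mulVec_add _ _ _

lemma act_smul (g : SLZ n) (c : R) (v : Fin n → R) : act R g (c • v) = c • act R g v :=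
  mulVec_smul _ _ _

lemma act_zero (g : SLZ n) : act R g 0 = 0 := mulVec_zero _

lemma act_inv_act (g : SLZ n) (v : Fin n → R) : act R g⁻¹ (act R g v) = v := by
  rw [← act_mul, inv_mul_cancel, act_one]

lemma act_act_inv (g : SLZ n) (v : Fin n → R) : act R g (act R g⁻¹ v) = v := by
  rw [← act_mul, mul_inv_cancel, act_one]

lemma act_map {S : Type} [CommRing S] (φ : R →+* S) (g : SLZ n) (v : Fin n → R) :
    act S g (fun i => φ (v i)) = fun i => φ (act R g v i) := by
  funext i
  simp only [act, mulVec, dotProduct, map_apply, eq_intCast, map_sum, map_mul, map_intCast]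

lemma act_intCast (g : SLZ n) (v : Fin n → ℤ) :
    act R g (fun i => (v i : R)) = fun i => ((mat g *ᵥ v) i : R) := by
  funext i
  simp only [act, mulVec, dotProduct, map_apply, eq_intCast, Int.cast_sum, Int.cast_mul]

/-- The matrix `1 + w φ` for `φ w = 0`. -/
def uni (w φ : Fin n → ℤ) (h : φ ⬝ᵥ w = 0) : SLZ n :=
  ⟨1 + replicateCol Unit w * replicateRow Unit φ, by rw [det_one_add_replicateCol_mul_replicateRow, h, add_zero]⟩

lemma uni_act (w φ : Fin n → ℤ) (h : φ ⬝ᵥ w = 0) (v : Fin n → R) :
    act R (uni w φ h) v = v + (∑ i, (φ i : R) * v i) • fun i => (w i : R) := by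
  funext i
  change ∑ j, ((1 + replicateCol Unit w * replicateRow Unit φ : Matrix (Fin n) (Fin n) ℤ).map (Int.castRingHom R)) i j
    * v j = v i + (∑ i, (φ i : R) * v i) * (w i : R)
  have e : ∀ j, ((1 + replicateCol Unit w * replicateRow Unit φ : Matrix (Fin n) (Fin n) ℤ).map
      (Int.castRingHom R)) i j * v j = (if i = j then v j else 0) + (φ j : R) * v j * (w i : R) := by
    intro j
    rw [map_apply, Matrix.add_apply, Matrix.mul_apply, Matrix.one_apply]
    simp only [Finset.univ_unique, Finset.sum_singleton, replicateCol_apply, replicateRow_apply, eq_intCast,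
      Int.cast_add, Int.cast_mul]
    split_ifs <;> push_cast <;> ring
  rw [Finset.sum_congr rfl fun j _ => e j, Finset.sum_add_distrib, Finset.sum_ite_eq, if_pos (Finset.mem_univ i),
    Finset.sum_mul]

lemma uni_mul (w w' φ : Fin n → ℤ) (h : φ ⬝ᵥ w = 0) (h' : φ ⬝ᵥ w' = 0) :
    uni w φ h * uni w' φ h' = uni (w + w') φ (by rw [dotProduct_add, h, h', add_zero]) := by
  apply Subtype.ext
  change (1 + replicateCol Unit w * replicateRow Unit φ) * (1 + replicateCol Unit w' * replicateRow Unit φ) =
    1 + replicateCol Unit (w + w') * replicateRow Unit φ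
  have h1 : (replicateCol Unit w * replicateRow Unit φ) * (replicateCol Unit w' * replicateRow Unit φ) = 0 := by
    have h2 : replicateRow Unit φ * replicateCol Unit w' = 0 := by
      ext i j
      rw [Matrix.replicateRow_mul_replicateCol_apply, h']
      rfl
    rw [Matrix.mul_assoc, ← Matrix.mul_assoc (replicateRow Unit φ), h2, Matrix.zero_mul, Matrix.mul_zero]
  have h3 : replicateCol Unit (w + w') = replicateCol Unit w + replicateCol Unit w' := rfl
  rw [mul_add, mul_one, add_mul, one_mul, h1, add_zero, h3, Matrix.add_mul]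
  abel

/-- Powers of `1 + w φ` in a subgroup of finite index. -/
lemma exists_uni_mem (Γ : Subgroup (SLZ n)) (hΓ : Γ.index ≠ 0) (w φ : Fin n → ℤ) (h : φ ⬝ᵥ w = 0) :
    ∃ m : ℕ, 0 < m ∧ ∀ k : ℤ, uni ((m * k : ℤ) • w) φ (by rw [dotProduct_smul, h, smul_zero]) ∈ Γ := by
  obtain ⟨m, hm, -, h1⟩ := Subgroup.exists_pow_mem_of_index_ne_zero hΓ (uni w φ h)
  refine ⟨m, hm, fun k => ?_⟩
  let f : Multiplicative ℤ →* SLZ n :=
    { toFun := fun a => uni (a.toAdd • w) φ (by rw [dotProduct_smul, h, smul_zero])
      map_one' := by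
        apply Subtype.ext
        change 1 + replicateCol Unit ((0 : ℤ) • w) * replicateRow Unit φ = 1
        rw [zero_smul]
        have h3 : replicateCol Unit (0 : Fin n → ℤ) = 0 := rfl
        rw [h3, Matrix.zero_mul, add_zero]
      map_mul' := fun a b => by
        rw [uni_mul]
        congr 1
        rw [toAdd_mul, add_smul] }
  have e1 : f (Multiplicative.ofAdd 1) = uni w φ h := by
    apply Subtype.ext
    change 1 + replicateCol Unit ((1 : ℤ) • w) * replicateRow Unit φ = 1 + replicateCol Unit w * replicateRow Unit φ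
    rw [one_smul]
  have e2 : Multiplicative.ofAdd ((m : ℤ) * k) = (Multiplicative.ofAdd (1 : ℤ) ^ m) ^ k := by
    rw [← zpow_natCast, ← _root_.zpow_mul, ← Int.ofAdd_mul, one_mul]
  have e3 : f (Multiplicative.ofAdd ((m : ℤ) * k)) = ((uni w φ h) ^ m) ^ k := by
    rw [e2, map_zpow, map_pow, e1]
  have e4 : f (Multiplicative.ofAdd ((m : ℤ) * k)) = uni ((m * k : ℤ) • w) φ (by rw [dotProduct_smul, h, smul_zero]) :=
    rfl
  rw [← e4, e3]
  exact Γ.zpow_mem h1 k

lemma transvection_mulVec {i j : Fin n} (hij : i ≠ j) (c : ℤ) (v : Fin n → ℤ) :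
    mat (SpecialLinearGroup.transvection hij c) *ᵥ v = v + Pi.single i (c * v j) := by
  rw [mat_transvection, add_mulVec, one_mulVec, single_mulVec_eq]
  congr 1
  funext k
  rw [Pi.smul_apply, Pi.single_apply, Pi.single_apply]
  split_ifs <;> simp

/-- Every integral vector is moved to a multiple of the first basis vector. -/
theorem exists_act_single (v : Fin (n + 2) → ℤ) :
    ∃ (g : SLZ (n + 2)) (d : ℤ), mat g *ᵥ v = Pi.single 0 d := by
  obtain ⟨s, hs⟩ : ∃ s : ℕ, s = ∑ i, (v i).natAbs := ⟨_, rfl⟩
  induction s using Nat.strong_induction_on generalizing v with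
  | _ s ih =>
  by_cases hc : ∃ i j, i ≠ j ∧ v i ≠ 0 ∧ v j ≠ 0 ∧ (v j).natAbs ≤ (v i).natAbs
  · obtain ⟨i, j, hij, hi, hj, hle⟩ := hc
    obtain ⟨c, hc⟩ : ∃ c : ℤ, (v i + c * v j).natAbs < (v i).natAbs := by
      rcases lt_or_gt_of_ne hi with h1 | h1 <;> rcases lt_or_gt_of_ne hj with h2 | h2
      · exact ⟨-1, by omega⟩
      · exact ⟨1, by omega⟩
      · exact ⟨1, by omega⟩
      · exact ⟨-1, by omega⟩
    have h1 : ∑ k, ((v + Pi.single i (c * v j) : Fin (n + 2) → ℤ) k).natAbs < s := by
      rw [hs]
      refine Finset.sum_lt_sum (fun k _ => ?_) ⟨i, Finset.mem_univ i, ?_⟩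
      · rw [Pi.add_apply, Pi.single_apply]
        split_ifs with hk
        · rw [hk]
          exact hc.le
        · rw [add_zero]
      · rw [Pi.add_apply, Pi.single_eq_same]
        exact hc
    obtain ⟨g, d, hg⟩ := ih _ h1 (v + Pi.single i (c * v j)) rfl
    refine ⟨g * SpecialLinearGroup.transvection hij c, d, ?_⟩
    rw [mat_mul, ← mulVec_mulVec, transvection_mulVec, hg]
  · push Not at hc
    by_cases h0 : ∃ i, v i ≠ 0
    · obtain ⟨i, hi⟩ := h0
      have hv : v = Pi.single i (v i) := by
        funext j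
        rw [Pi.single_apply]
        split_ifs with hj
        · rw [hj]
        · by_contra hne
          have h1 := hc i j (Ne.symm hj) hi hne
          have h2 := hc j i hj hne hi
          omega
      by_cases hi0 : i = 0
      · refine ⟨1, v i, ?_⟩
        rw [mat_one, one_mulVec]
        conv_lhs => rw [hv]
        rw [hi0]
      · refine ⟨SpecialLinearGroup.transvection hi0 (-1) * SpecialLinearGroup.transvection (Ne.symm hi0) 1, v i, ?_⟩
        rw [mat_mul, ← mulVec_mulVec, transvection_mulVec, transvection_mulVec]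
        funext k
        rw [Pi.add_apply, Pi.add_apply, Pi.add_apply, hv]
        simp only [Pi.single_apply, if_neg hi0, if_neg (Ne.symm hi0), if_true, one_mul]
        by_cases hk : k = 0
        · subst hk
          simp [Ne.symm hi0]
        · by_cases hk' : k = i
          · subst hk'
            simp [hk]
          · simp [hk, hk']
    · push Not at h0
      refine ⟨1, 0, ?_⟩
      rw [mat_one, one_mulVec]
      funext k
      rw [h0 k, Pi.single_zero]
      rfl

end Q54.DI
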