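import Pool.Agent.Q54.DI.Dio
import Pool.Agent.Q54.DI.Euc

/-!
# Diophantine sets invariant under a subgroup of finite index of `SL_n(ℤ)`
-/

set_option autoImplicit false

namespace Q54.DI

open Matrix

variable {n : ℕ}

/-- The set `T` of vectors is invariant under `Γ`. -/
def IsInv (Γ : Subgroup (SLZ n)) (T : Set (Fin n → ℚ)) : Prop :=
  ∀ g ∈ Γ, ∀ x ∈ T, act ℚ g x ∈ T

/-- Every rational vector is a multiple of an image of the first basis vector. -/
lemma exists_orbit (x : Fin (n + 2) → ℚ) :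
    ∃ (g : SLZ (n + 2)) (c : ℚ), x = c • act ℚ g (Pi.single 0 1) := by
  obtain ⟨D, hD, v, hv⟩ : ∃ D : ℤ, D ≠ 0 ∧ ∃ v : Fin (n + 2) → ℤ, ∀ i, x i * D = v i := by
    refine ⟨∏ i, ((x i).den : ℤ), Finset.prod_ne_zero_iff.2 fun i _ => by exact_mod_cast (x i).den_ne_zero,
      fun i => (x i).num * ∏ j ∈ Finset.univ.erase i, ((x j).den : ℤ), fun i => ?_⟩
    rw [← Finset.mul_prod_erase Finset.univ _ (Finset.mem_univ i)]
    push_cast
    rw [← mul_assoc]
    congr 1
    exact Rat.mul_den_eq_num (x i)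
  obtain ⟨g, d, hg⟩ := exists_act_single v
  refine ⟨g⁻¹, (d : ℚ) / D, ?_⟩
  have h1 : act ℚ g (fun i => (v i : ℚ)) = (d : ℚ) • Pi.single 0 1 := by
    rw [act_intCast, hg]
    funext i
    rw [Pi.smul_apply, Pi.single_apply, Pi.single_apply]
    split_ifs <;> simp
  have h2 : (fun i => (v i : ℚ)) = (d : ℚ) • act ℚ g⁻¹ (Pi.single 0 1) := by
    rw [← act_smul, ← h1, act_inv_act]
  have hD' : (D : ℚ) ≠ 0 := Int.cast_ne_zero.2 hD
  funext i
  have h3 := congrFun h2 i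
  rw [← hv i, Pi.smul_apply, smul_eq_mul] at h3
  rw [Pi.smul_apply, smul_eq_mul, div_mul_eq_mul_div, eq_div_iff hD', h3]

/-- The vector `e_0 + s e_1` for a rational number `s`. -/
lemma exists_orbit_den (s : ℚ) : ∃ (g : SLZ (n + 2)) (d : ℤ), |d| = 1 ∧
    (Pi.single 0 1 + s • Pi.single 1 1 : Fin (n + 2) → ℚ) = ((d : ℚ) / s.den) • act ℚ g (Pi.single 0 1) := by
  obtain ⟨g, d, hg⟩ := exists_act_single (n := n) (Pi.single 0 (s.den : ℤ) + Pi.single 1 s.num)
  have h01 : (0 : Fin (n + 2)) ≠ 1 := Fin.zero_ne_one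
  have h1 : act ℚ g (fun i => ((Pi.single 0 (s.den : ℤ) + Pi.single 1 s.num : Fin (n + 2) → ℤ) i : ℚ)) =
      (d : ℚ) • Pi.single 0 1 := by
    rw [act_intCast, hg]
    funext i
    rw [Pi.smul_apply, Pi.single_apply, Pi.single_apply]
    split_ifs <;> simp
  have h2 : (fun i => ((Pi.single 0 (s.den : ℤ) + Pi.single 1 s.num : Fin (n + 2) → ℤ) i : ℚ)) =
      (d : ℚ) • act ℚ g⁻¹ (Pi.single 0 1) := by
    rw [← act_smul, ← h1, act_inv_act]
  have h4 : act ℚ g⁻¹ (Pi.single 0 1) = fun i => ((mat g⁻¹ *ᵥ Pi.single 0 1) i : ℚ) := by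
    rw [← act_intCast]
    congr 1
    funext i
    rw [Pi.single_apply, Pi.single_apply]
    split_ifs <;> simp
  have hd0 : (s.den : ℤ) = d * (mat g⁻¹ *ᵥ Pi.single 0 1) 0 := by
    have h3 := congrFun h2 0
    rw [h4] at h3
    simp only [Pi.smul_apply, smul_eq_mul, Pi.add_apply, Pi.single_eq_same, Pi.single_eq_of_ne h01] at h3
    exact_mod_cast h3
  have hd1 : s.num = d * (mat g⁻¹ *ᵥ Pi.single 0 1) 1 := by
    have h3 := congrFun h2 1
    rw [h4] at h3
    simp only [Pi.smul_apply, smul_eq_mul, Pi.add_apply, Pi.single_eq_same, Pi.single_eq_of_ne h01.symm, zero_add] at h3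
    exact_mod_cast h3
  refine ⟨g⁻¹, d, ?_, ?_⟩
  · have h5 : d ∣ (s.den : ℤ) := ⟨_, hd0⟩
    have h6 : d ∣ s.num := ⟨_, hd1⟩
    have h7 : IsCoprime s.num (s.den : ℤ) := by
      rw [Int.isCoprime_iff_gcd_eq_one]
      exact s.reduced
    exact Int.isUnit_iff_abs_eq.1 (h7.isUnit_of_dvd' h6 h5)
  · have hden : (s.den : ℚ) ≠ 0 := Nat.cast_ne_zero.2 s.den_ne_zero
    funext i
    have h3 := congrFun h2 i
    rw [Pi.smul_apply, smul_eq_mul] at h3
    rw [Pi.smul_apply, smul_eq_mul, div_mul_eq_mul_div, eq_div_iff hden, ← h3]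
    simp only [Pi.add_apply, Pi.smul_apply, smul_eq_mul, Pi.single_apply]
    have hs := Rat.mul_den_eq_num s
    split_ifs with h8 h9 h9
    · exact absurd (h8.symm.trans h9) h01
    · simp
    · simp [hs]
    · simp

/-- **The discrete case.** -/
theorem intDioph_of_discrete (Γ : Subgroup (SLZ (n + 2))) (hΓ : Γ.index ≠ 0) {T : Set (Fin (n + 2) → ℚ)}
    (hT : IsDioph T) (hinv : IsInv Γ T) {x : Fin (n + 2) → ℚ} (hx : x ∈ T) (hx0 : x ≠ 0)
    (h : ∀ g : SLZ (n + 2), ∃ ε : ℚ, 0 < ε ∧ ∀ c : ℚ, c ≠ 0 → c • act ℚ g (Pi.single 0 1) ∈ T → ε ≤ |c|) :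
    IntDioph := by
  have hfi : Γ.FiniteIndex := ⟨hΓ⟩
  have hfin : Finite (SLZ (n + 2) ⧸ Γ) := inferInstance
  choose ε hε hε' using h
  obtain ⟨q₀, hq₀⟩ := Finite.exists_min fun q : SLZ (n + 2) ⧸ Γ => ε (q.out)⁻¹
  have hlow : ∀ (g : SLZ (n + 2)) (c : ℚ), c ≠ 0 → c • act ℚ g (Pi.single 0 1) ∈ T → ε (q₀.out)⁻¹ ≤ |c| := by
    intro g c hc hgc
    let q : SLZ (n + 2) ⧸ Γ := QuotientGroup.mk g⁻¹
    have h1 : (q.out)⁻¹ * g⁻¹ ∈ Γ := by
      rw [← QuotientGroup.eq]
      exact Quotient.out_eq' q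
    have h2 := hinv _ h1 _ hgc
    rw [act_smul, ← act_mul, mul_assoc, inv_mul_cancel, mul_one] at h2
    exact (hq₀ q).trans (hε' _ c hc h2)
  -- the smallest content
  let A : Set ℚ := {a | ∃ (g : SLZ (n + 2)) (c : ℚ), c ≠ 0 ∧ c • act ℚ g (Pi.single 0 1) ∈ T ∧ a = |c|}
  obtain ⟨g, c, hc, hgc, hmin⟩ : ∃ (g : SLZ (n + 2)) (c : ℚ), c ≠ 0 ∧ c • act ℚ g (Pi.single 0 1) ∈ T ∧
      ∀ (g' : SLZ (n + 2)) (c' : ℚ), c' ≠ 0 → c' • act ℚ g' (Pi.single 0 1) ∈ T → |c| < 2 * |c'| := by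
    by_contra hcon
    push Not at hcon
    have key : ∀ k : ℕ, ∃ (g : SLZ (n + 2)) (c : ℚ), c ≠ 0 ∧ c • act ℚ g (Pi.single 0 1) ∈ T ∧
        |c| * 2 ^ k ≤ ∑ i, |x i| + 1 + |(exists_orbit x).choose_spec.choose| := by
      intro k
      induction k with
      | zero =>
        refine ⟨(exists_orbit x).choose, (exists_orbit x).choose_spec.choose, ?_, ?_, ?_⟩
        · intro h0
          have h1 := (exists_orbit x).choose_spec.choose_spec
          rw [h0, zero_smul] at h1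
          exact hx0 h1
        · rw [← (exists_orbit x).choose_spec.choose_spec]
          exact hx
        · rw [pow_zero, mul_one]
          have h1 : 0 ≤ ∑ i, |x i| := Finset.sum_nonneg fun i _ => abs_nonneg _
          linarith
      | succ k ih =>
        obtain ⟨g, c, hc, hgc, hk⟩ := ih
        obtain ⟨g', c', hc', hgc', h1⟩ := hcon g c hc hgc
        refine ⟨g', c', hc', hgc', ?_⟩
        rw [pow_succ]
        have h2 : (0 : ℚ) < 2 ^ k := by positivity
        nlinarith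
    obtain ⟨k, hk⟩ := exists_nat_gt ((∑ i, |x i| + 1 + |(exists_orbit x).choose_spec.choose|) / ε (q₀.out)⁻¹)
    obtain ⟨g, c, hc, hgc, h1⟩ := key k
    have h2 := hlow g c hc hgc
    have h3 := hε (q₀.out)⁻¹
    rw [div_lt_iff₀ h3] at hk
    have h4 : (k : ℚ) < 2 ^ k := by exact_mod_cast Nat.lt_two_pow_self
    have h5 : ε (q₀.out)⁻¹ * 2 ^ k ≤ |c| * 2 ^ k := mul_le_mul_of_nonneg_right h2 (by positivity)
    nlinarith
  have hD : ∀ s : ℚ, c • act ℚ g (Pi.single 0 1 + s • Pi.single 1 1) ∈ T → s.den = 1 := by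
    intro s hs
    obtain ⟨g', d, hd, h1⟩ := exists_orbit_den (n := n) s
    rw [h1, act_smul, smul_smul, ← act_mul] at hs
    have hden : (0 : ℚ) < s.den := by exact_mod_cast s.den_pos
    have hd' : |(d : ℚ)| = 1 := by exact_mod_cast hd
    have hd0 : (d : ℚ) ≠ 0 := by
      intro h0
      rw [h0, abs_zero] at hd'
      exact zero_ne_one hd'
    have h2 := hmin _ _ (mul_ne_zero hc (div_ne_zero hd0 hden.ne')) hs
    rw [abs_mul, abs_div, hd', abs_of_pos hden] at h2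
    have h3 : 0 < |c| := abs_pos.2 hc
    have h4 : (s.den : ℚ) < 2 := by
      rw [one_div, ← mul_assoc, mul_comm 2 |c|, mul_assoc, ← div_eq_mul_inv, lt_mul_iff_one_lt_right h3,
        lt_div_iff₀ hden, one_mul] at h2
      exact h2
    have h5 : s.den < 2 := by exact_mod_cast h4
    have h6 := s.den_pos
    omega
  -- translations
  let Γ' : Subgroup (SLZ (n + 2)) := Γ.comap (MulAut.conj g).toMonoidHom
  have hΓ' : Γ'.index ≠ 0 := by
    rw [Subgroup.index_comap_of_surjective _ (MulAut.conj g).surjective]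
    exact hΓ
  have h01 : (0 : Fin (n + 2)) ≠ 1 := Fin.zero_ne_one
  have hφ : (Pi.single 0 1 : Fin (n + 2) → ℤ) ⬝ᵥ Pi.single 1 1 = 0 := by
    rw [single_dotProduct, Pi.single_eq_of_ne h01, mul_zero]
  obtain ⟨m, hm, huni⟩ := exists_uni_mem Γ' hΓ' (Pi.single 1 1) (Pi.single 0 1) hφ
  have hper : ∀ (s : ℚ) (k : ℤ), c • act ℚ g (Pi.single 0 1 + s • Pi.single 1 1) ∈ T →
      c • act ℚ g (Pi.single 0 1 + (s + m * k) • Pi.single 1 1) ∈ T := by
    intro s k hs
    have h1 : g * uni ((m * k : ℤ) • Pi.single 1 1) (Pi.single 0 1) (by rw [dotProduct_smul, hφ, smul_zero]) * g⁻¹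
      ∈ Γ := huni k
    have h2 := hinv _ h1 _ hs
    rw [act_smul, act_mul, act_mul, act_inv_act, uni_act] at h2
    have h3 : ∑ i, (((Pi.single 0 1 : Fin (n + 2) → ℤ) i : ℤ) : ℚ) *
        (Pi.single 0 1 + s • Pi.single 1 1 : Fin (n + 2) → ℚ) i = 1 := by
      rw [Finset.sum_eq_single 0]
      · simp
      · intro i _ hi
        rw [Pi.single_eq_of_ne hi, Int.cast_zero, zero_mul]
      · intro h0
        exact absurd (Finset.mem_univ _) h0
    have h4 : (Pi.single 0 1 + s • Pi.single 1 1 : Fin (n + 2) → ℚ) + (1 : ℚ) • (fun i =>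
        ((((m * k : ℤ) • Pi.single 1 1 : Fin (n + 2) → ℤ) i : ℤ) : ℚ)) =
        Pi.single 0 1 + (s + m * k) • Pi.single 1 1 := by
      funext i
      simp only [Pi.add_apply, Pi.smul_apply, smul_eq_mul, one_mul, Pi.single_apply]
      split_ifs <;> push_cast <;> ring
    rw [h3, h4] at h2
    exact h2
  have h0 : c • act ℚ g (Pi.single 0 1 + (0 : ℚ) • Pi.single 1 1) ∈ T := by
    rw [zero_smul, add_zero]
    exact hgc
  -- the integers
  have hS : ∀ j : ℕ, IsDioph {x : Unit → ℚ | c • act ℚ g (Pi.single 0 1 + (x () - j) • Pi.single 1 1) ∈ T} := by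
    intro j
    have h1 := hT.preimage (κ := Unit) fun i =>
      MvPolynomial.C (c * act ℚ g (Pi.single 0 1) i - j * (c * act ℚ g (Pi.single 1 1) i)) +
        MvPolynomial.C (c * act ℚ g (Pi.single 1 1) i) * MvPolynomial.X ()
    convert h1 using 4 with y
    funext i
    simp only [Pi.smul_apply, smul_eq_mul, act_add, act_smul, Pi.add_apply, map_add, map_mul, map_sub,
      MvPolynomial.eval_C, MvPolynomial.eval_X, map_natCast]
    ring
  have h1 := isDioph_iUnion hS m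
  have h2 : {x : Unit → ℚ | ∃ z : ℤ, x () = z} = {x : Unit → ℚ | ∃ j < m, x ∈
      {x : Unit → ℚ | c • act ℚ g (Pi.single 0 1 + (x () - j) • Pi.single 1 1) ∈ T}} := by
    ext y
    constructor
    · rintro ⟨z, hz⟩
      have hm' : (0 : ℤ) < m := by exact_mod_cast hm
      refine ⟨(z % m).toNat, ?_, ?_⟩
      · have h3 := Int.emod_lt_of_pos z hm'
        have h4 := Int.emod_nonneg z hm'.ne'
        omega
      · change c • act ℚ g (Pi.single 0 1 + (y () - ((z % m).toNat : ℚ)) • Pi.single 1 1) ∈ T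
        have h4 := Int.emod_nonneg z hm'.ne'
        have h5 : y () - ((z % m).toNat : ℚ) = 0 + m * (z / m : ℤ) := by
          have h6 : ((z % m).toNat : ℚ) = ((z % m : ℤ) : ℚ) := by exact_mod_cast Int.toNat_of_nonneg h4
          have h7 : (z : ℚ) = ((m * (z / m) + z % m : ℤ) : ℚ) := by rw [Int.mul_ediv_add_emod]
          rw [hz, h6, h7]
          push_cast
          ring
        rw [h5]
        exact hper 0 _ h0
    · rintro ⟨j, -, hj⟩
      have h3 := hD _ hj
      refine ⟨(y () - j).num + j, ?_⟩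
      have h4 : ((y () - j).num : ℚ) = y () - j := by
        rw [← Rat.mul_den_eq_num, h3, Nat.cast_one, mul_one]
      push_cast
      rw [h4]
      ring
  rw [IntDioph, h2]
  exact h1

end Q54.DI
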