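import Pool.Agent.Q54.DI.Den

/-!
# Semialgebraic sets and closures with parameters
-/

set_option autoImplicit false

namespace Q54.DI

open MvPolynomial

variable {ι κ : Type}

lemma isSemialg_of_fintype {α : Type} [Fintype α] (P : α → MvPolynomial ι ℚ) (G : α → Finset (MvPolynomial ι ℚ)) :
    IsSemialg {x : ι → ℝ | ∃ j : α, (aeval x (P j) : ℝ) = 0 ∧ ∀ g ∈ G j, (0 : ℝ) < aeval x g} := by
  let e := Fintype.equivFin α
  refine ⟨Fintype.card α, P ∘ e.symm, G ∘ e.symm, ?_⟩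
  ext x
  constructor
  · rintro ⟨j, h1, h2⟩
    refine ⟨e j, ?_, ?_⟩
    · rw [Function.comp_apply, e.symm_apply_apply]
      exact h1
    · rw [Function.comp_apply, e.symm_apply_apply]
      exact h2
  · rintro ⟨j, h1, h2⟩
    exact ⟨e.symm j, h1, h2⟩

lemma IsSemialg.union {A B : Set (ι → ℝ)} (hA : IsSemialg A) (hB : IsSemialg B) : IsSemialg (A ∪ B) := by
  obtain ⟨m, P, G, rfl⟩ := hA
  obtain ⟨m', P', G', rfl⟩ := hB
  have h := isSemialg_of_fintype (Sum.elim P P') (Sum.elim G G')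
  convert h using 1
  ext x
  constructor
  · rintro (⟨j, h1, h2⟩ | ⟨j, h1, h2⟩)
    · exact ⟨Sum.inl j, h1, h2⟩
    · exact ⟨Sum.inr j, h1, h2⟩
  · rintro ⟨j | j, h1, h2⟩
    · exact Or.inl ⟨j, h1, h2⟩
    · exact Or.inr ⟨j, h1, h2⟩

/-- The preimage under a polynomial map. -/
lemma IsSemialg.preimage {A : Set (ι → ℝ)} (hA : IsSemialg A) (p : ι → MvPolynomial κ ℚ) :
    IsSemialg {x : κ → ℝ | (fun i => aeval x (p i)) ∈ A} := by
  classical
  obtain ⟨m, P, G, rfl⟩ := hA
  refine ⟨m, fun j => bind₁ p (P j), fun j => (G j).image (bind₁ p), ?_⟩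
  have key : ∀ (x : κ → ℝ) (f : MvPolynomial ι ℚ), (aeval x (bind₁ p f) : ℝ) = aeval (fun i => aeval x (p i)) f := by
    intro x f
    rw [aeval_bind₁]
  ext x
  refine exists_congr fun j => ?_
  rw [key]
  refine and_congr Iff.rfl ?_
  constructor
  · intro h g hg
    obtain ⟨g', hg', rfl⟩ := Finset.mem_image.1 hg
    rw [key]
    exact h g' hg'
  · intro h g hg
    rw [← key]
    exact h _ (Finset.mem_image_of_mem _ hg)

/-- The intersection with the set of the zeros of a polynomial. -/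
lemma IsSemialg.inter_zeros {A : Set (ι → ℝ)} (hA : IsSemialg A) (p : MvPolynomial ι ℚ) :
    IsSemialg (A ∩ {x | (aeval x p : ℝ) = 0}) := by
  obtain ⟨m, P, G, rfl⟩ := hA
  refine ⟨m, fun j => P j * P j + p * p, G, ?_⟩
  ext x
  constructor
  · rintro ⟨⟨j, h1, h2⟩, h3⟩
    refine ⟨j, ?_, h2⟩
    rw [map_add, map_mul, map_mul, h1, (h3 : (aeval x p : ℝ) = 0)]
    ring
  · rintro ⟨j, h1, h2⟩
    rw [map_add, map_mul, map_mul] at h1
    have h3 := mul_self_nonneg (aeval x (P j) : ℝ)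
    have h4 := mul_self_nonneg (aeval x p : ℝ)
    exact ⟨⟨j, mul_self_eq_zero.1 (le_antisymm (by linarith) h3), h2⟩,
      mul_self_eq_zero.1 (le_antisymm (by linarith) h4)⟩

lemma isSemialg_univ : IsSemialg (Set.univ : Set (ι → ℝ)) := by
  refine ⟨1, fun _ => 0, fun _ => ∅, ?_⟩
  ext x
  simp

lemma isSemialg_empty : IsSemialg (∅ : Set (ι → ℝ)) := by
  refine ⟨0, fun _ => 0, fun _ => ∅, ?_⟩
  ext x
  simp

/-- A semialgebraic set on a line: if it contains infinitely many integers of the line then it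
contains points of the line with other real coordinates. -/
lemma IsSemialg.not_int [DecidableEq ι] {A : Set (ι → ℝ)} (hA : IsSemialg A) (i₀ : ι) (h1 : ∀ x ∈ A, ∃ z : ℤ, x i₀ = z)
    (h2 : ∀ z : ℤ, (Pi.single i₀ (z : ℝ) : ι → ℝ) ∈ A) : False := by
  classical
  obtain ⟨m, P, G, rfl⟩ := hA
  choose j hj using h2
  obtain ⟨j₀, hj₀⟩ := Finite.exists_infinite_fiber j
  let q : ι → Polynomial ℝ := Pi.single i₀ Polynomial.X
  have hq : ∀ t : ℝ, (fun i => (q i).eval t) = Pi.single i₀ t := by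
    intro t
    funext i
    by_cases hi : i = i₀
    · subst hi
      simp [q]
    · simp [q, Pi.single_eq_of_ne hi]
  have hev : ∀ (f : MvPolynomial ι ℚ) (t : ℝ), (aeval (Pi.single i₀ t : ι → ℝ) f : ℝ) =
      (aeval q f : Polynomial ℝ).eval t := by
    intro f t
    rw [← hq t]
    have h3 : (Polynomial.evalRingHom t).comp (algebraMap ℚ (Polynomial ℝ)) = algebraMap ℚ ℝ :=
      Subsingleton.elim _ _
    rw [aeval_def, aeval_def, ← Polynomial.coe_evalRingHom, eval₂_comp_left, h3]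
    rfl
  -- the equation holds on the whole line
  have hP : (aeval q (P j₀) : Polynomial ℝ) = 0 := by
    refine Polynomial.eq_zero_of_infinite_isRoot _ ?_
    have h3 : (Set.range fun z : (j ⁻¹' {j₀} : Set ℤ) => ((z : ℤ) : ℝ)).Infinite := by
      refine Set.infinite_range_of_injective fun a b hab => ?_
      exact Subtype.ext (Int.cast_injective hab)
    refine h3.mono ?_
    rintro _ ⟨z, rfl⟩
    have h4 := (hj z).1
    have h5 : j z = j₀ := z.2
    rw [h5, hev] at h4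
    exact h4
  obtain ⟨z⟩ : Nonempty (j ⁻¹' {j₀} : Set ℤ) := inferInstance
  have hz : j z = j₀ := z.2
  have hG := (hj z).2
  rw [hz] at hG
  -- a neighbourhood
  have hopen : ∀ᶠ t in nhds ((z : ℤ) : ℝ), ∀ g ∈ G j₀, (0 : ℝ) < (aeval q g : Polynomial ℝ).eval t := by
    rw [Filter.eventually_all_finset]
    intro g hg
    have h3 := hG g hg
    rw [hev] at h3
    exact (aeval q g : Polynomial ℝ).continuous.continuousAt.eventually (lt_mem_nhds h3)
  rw [Metric.eventually_nhds_iff] at hopen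
  obtain ⟨ε, hε, hopen⟩ := hopen
  let δ : ℝ := min (ε / 2) (1 / 2)
  have hδ : 0 < δ := lt_min (half_pos hε) (by norm_num)
  have hδ' : δ < ε := (min_le_left _ _).trans_lt (half_lt_self hε)
  have hδ'' : δ ≤ 1 / 2 := min_le_right _ _
  have hmem : (Pi.single i₀ (((z : ℤ) : ℝ) + δ) : ι → ℝ) ∈
      {x : ι → ℝ | ∃ j : Fin m, (aeval x (P j) : ℝ) = 0 ∧ ∀ g ∈ G j, (0 : ℝ) < aeval x g} := by
    refine ⟨j₀, ?_, fun g hg => ?_⟩
    · rw [hev, hP, Polynomial.eval_zero]
    · rw [hev]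
      refine hopen ?_ g hg
      rw [Real.dist_eq, add_sub_cancel_left, abs_of_pos hδ]
      exact hδ'
  obtain ⟨a, ha⟩ := h1 _ hmem
  rw [Pi.single_eq_same] at ha
  have h3 : ((a - z : ℤ) : ℝ) = δ := by
    push_cast
    linarith
  have h4 : (0 : ℝ) < ((a - z : ℤ) : ℝ) := by rw [h3]; exact hδ
  have h5 : ((a - z : ℤ) : ℝ) < 1 := by rw [h3]; linarith
  have h6 : 0 < a - z := by exact_mod_cast h4
  have h7 : a - z < 1 := by exact_mod_cast h5
  omega

end Q54.DI
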